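import Pool.Agent.Helper32_ND.Stmts

/-! # Squad ND (MP_b48657_ag): module GEN. -/

set_option autoImplicit false
set_option linter.unusedVariables false
set_option linter.unusedSectionVars false

namespace Pool.Agent.ND.H34

open Finset Pool.Agent.ND

/-- common kernel of a family of forms -/
noncomputable def kr {N r : ℕ} (f : Fin r → Fin N → ℂ) : Submodule ℂ (Fin N → ℂ) :=
  LinearMap.ker (Matrix.mulVecLin (Matrix.of f))

lemma mem_kr {N r : ℕ} {f : Fin r → Fin N → ℂ} {w : Fin N → ℂ} :
    w ∈ kr f ↔ ∀ k, dotProduct (f k) w = 0 := by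
  unfold kr
  rw [LinearMap.mem_ker, Matrix.mulVecLin_apply]
  constructor
  · intro h k
    exact congrFun h k
  · intro h
    funext k
    exact h k

lemma finrank_kr {N r : ℕ} {f : Fin r → Fin N → ℂ} (hf : LinearIndependent ℂ f) :
    Module.finrank ℂ (kr f) + r = N := by
  have h1 := LinearMap.finrank_range_add_finrank_ker (Matrix.mulVecLin (Matrix.of f))
  have h2 : Module.finrank ℂ (LinearMap.range (Matrix.mulVecLin (Matrix.of f))) = r := by
    have : (Matrix.of f).rank = Fintype.card (Fin r) := LinearIndependent.rank_matrix hf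
    rw [Fintype.card_fin] at this
    exact this
  rw [h2, Module.finrank_fin_fun] at h1
  unfold kr
  omega

section

variable {ι : Type} [Fintype ι] [DecidableEq ι] {M : ℕ} (A : Arr ι (M + 2))

/-- a direction of a line -/
lemma exists_dir (F : Fin (M + 1) → ι) (hF : A.Ind F) :
    ∃ w : Fin (M + 2) → ℂ, w ≠ 0 ∧ ∀ i, dotProduct (A.L i) w = 0 ↔ i ∈ A.cl F := by
  have h1 := finrank_kr hF
  have h2 : Module.finrank ℂ (kr fun k => A.L (F k)) = 1 := by omega
  obtain ⟨⟨w, hw⟩, hw0, -⟩ := finrank_eq_one_iff'.1 h2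
  have hw0' : w ≠ 0 := fun h => hw0 (Subtype.ext h)
  refine ⟨w, hw0', fun i => ⟨fun hi => ?_, fun hi => ?_⟩⟩
  · by_contra hcon
    have h3 : A.Ind (Fin.cons i F : Fin (M + 2) → ι) := (Ind_cons_iff i F).2 ⟨hF, hcon⟩
    have h4 := finrank_kr h3
    have h5 : Module.finrank ℂ (kr fun k => A.L ((Fin.cons i F : Fin (M + 2) → ι) k)) = 0 := by
      omega
    have h6 := Submodule.finrank_eq_zero.1 h5
    have h7 : w ∈ kr fun k => A.L ((Fin.cons i F : Fin (M + 2) → ι) k) := by
      rw [mem_kr]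
      intro k
      refine Fin.cases ?_ (fun k => ?_) k
      · simpa using hi
      · simpa using mem_kr.1 hw k
    rw [h6, Submodule.mem_bot] at h7
    exact hw0' h7
  · rw [Arr.mem_cl] at hi
    have h1 : ∀ x ∈ Submodule.span ℂ (Set.range fun k => A.L (F k)), dotProduct x w = 0 := by
      intro x hx
      induction hx using Submodule.span_induction with
      | mem x hx =>
        obtain ⟨k, rfl⟩ := hx
        exact mem_kr.1 hw k
      | zero => exact zero_dotProduct w
      | add a b _ _ ha hb => rw [add_dotProduct, ha, hb, add_zero]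
      | smul c a _ ha => rw [smul_dotProduct, ha, smul_zero]
    exact h1 _ hi

/-- a form which does not vanish at finitely many given nonzero vectors -/
lemma exists_form {N : ℕ} {κ : Type} [Finite κ] (w : κ → Fin N → ℂ) (hw : ∀ x, w x ≠ 0) :
    ∃ l : Fin N → ℂ, ∀ x, dotProduct l (w x) ≠ 0 := by
  by_contra hcon
  push Not at hcon
  let p : κ → Submodule ℂ (Fin N → ℂ) := fun x => kr (fun _ : Fin 1 => w x)
  have hp : ∀ x l, l ∈ p x ↔ dotProduct l (w x) = 0 := by
    intro x l
    show l ∈ kr (fun _ : Fin 1 => w x) ↔ _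
    rw [mem_kr]
    constructor
    · intro h
      rw [dotProduct_comm]; exact h 0
    · intro h _
      rw [dotProduct_comm]; exact h
  have hcov : ⋃ x, (p x : Set (Fin N → ℂ)) = Set.univ := by
    rw [Set.eq_univ_iff_forall]
    intro l
    obtain ⟨x, hx⟩ := hcon l
    exact Set.mem_iUnion.2 ⟨x, (hp x l).2 hx⟩
  obtain ⟨x, hx⟩ := Subspace.exists_eq_top_of_iUnion_eq_univ hcov
  apply hw x
  funext a
  have h1 : (Pi.single a (1 : ℂ) : Fin N → ℂ) ∈ p x := by rw [hx]; trivial
  rw [hp] at h1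
  simpa using h1

end

/-- GEN -/
theorem gen : GenStmt := by
  intro ι _ _ M A
  classical
  -- good flats
  let G : Finset ι → Prop := fun X => ∃ F : Fin (M + 1) → ι, A.Ind F ∧ A.cl F = X
  have hw : ∀ X : {X : Finset ι // G X}, ∃ w : Fin (M + 2) → ℂ, w ≠ 0 ∧
      ∀ i, dotProduct (A.L i) w = 0 ↔ i ∈ X.1 := by
    rintro ⟨X, F, hF, rfl⟩
    exact exists_dir A F hF
  choose w hw0 hw1 using hw
  obtain ⟨l0, hl0⟩ := exists_form w hw0
  let v : Finset ι → Fin (M + 2) → ℂ := fun X =>
    if h : G X then (dotProduct l0 (w ⟨X, h⟩))⁻¹ • w ⟨X, h⟩ else 0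
  have hv0 : ∀ F : Fin (M + 1) → ι, A.Ind F → dotProduct l0 (v (A.cl F)) = 1 := by
    intro F hF
    have hG : G (A.cl F) := ⟨F, hF, rfl⟩
    show dotProduct l0 (if h : G (A.cl F) then _ else 0) = 1
    rw [dif_pos hG, dotProduct_smul, smul_eq_mul]
    exact inv_mul_cancel₀ (hl0 _)
  have hvm : ∀ F : Fin (M + 1) → ι, A.Ind F → ∀ i,
      dotProduct (A.L i) (v (A.cl F)) = 0 ↔ i ∈ A.cl F := by
    intro F hF i
    have hG : G (A.cl F) := ⟨F, hF, rfl⟩
    have h1 : v (A.cl F) = (dotProduct l0 (w ⟨A.cl F, hG⟩))⁻¹ • w ⟨A.cl F, hG⟩ := dif_pos hG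
    rw [h1, dotProduct_smul, smul_eq_mul, mul_eq_zero, hw1]
    constructor
    · rintro (h | h)
      · exact absurd h (inv_ne_zero (hl0 _))
      · exact h
    · exact Or.inr
  -- lines
  have hline : ∀ Y : Finset ι, ∃ p q : Fin (M + 2) → ℂ, ∀ F : Fin (M + 1) → ι, A.Ind F →
      ∀ k : Fin (M + 1), A.cl (F ∘ k.succAbove) = Y → ∃ u : ℂ, v (A.cl F) = p + u • q := by
    intro Y
    by_cases hY : ∃ (F : Fin (M + 1) → ι) (k : Fin (M + 1)), A.Ind F ∧ A.cl (F ∘ k.succAbove) = Y
    · obtain ⟨F0, k0, hF0, rfl⟩ := hY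
      let g : Fin (M + 1) → Fin (M + 2) → ℂ :=
        Fin.cons l0 (fun m => A.L ((F0 ∘ k0.succAbove) m))
      have hg : LinearIndependent ℂ g := by
        rw [linearIndependent_finCons]
        refine ⟨Ind_face hF0 k0, fun hcon => ?_⟩
        have h1 : ∀ x ∈ Submodule.span ℂ (Set.range fun m => A.L ((F0 ∘ k0.succAbove) m)),
            dotProduct x (v (A.cl F0)) = 0 := by
          intro x hx
          induction hx using Submodule.span_induction with
          | mem x hx =>
            obtain ⟨m, rfl⟩ := hx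
            exact (hvm F0 hF0 _).2 (self_mem_cl F0 _)
          | zero => exact zero_dotProduct _
          | add a b _ _ ha hb => rw [add_dotProduct, ha, hb, add_zero]
          | smul c a _ ha => rw [smul_dotProduct, ha, smul_zero]
        have h2 := h1 l0 hcon
        rw [hv0 F0 hF0] at h2
        exact one_ne_zero h2
      have hfr := finrank_kr hg
      have hfr1 : Module.finrank ℂ (kr g) ≤ 1 := by omega
      obtain ⟨⟨q, hq⟩, hq1⟩ := finrank_le_one_iff.1 hfr1
      refine ⟨v (A.cl F0), q, fun F hF k hk => ?_⟩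
      have hmem : v (A.cl F) - v (A.cl F0) ∈ kr g := by
        rw [mem_kr]
        intro m
        refine Fin.cases ?_ (fun m => ?_) m
        · show dotProduct (g 0) _ = 0
          have : g 0 = l0 := rfl
          rw [this, dotProduct_sub, hv0 F hF, hv0 F0 hF0, sub_self]
        · have h3 : g m.succ = A.L ((F0 ∘ k0.succAbove) m) := by
            show (Fin.cons l0 (fun m => A.L ((F0 ∘ k0.succAbove) m)) : Fin (M + 1) → _) m.succ = _
            rw [Fin.cons_succ]
          rw [h3, dotProduct_sub]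
          have h4 : (F0 ∘ k0.succAbove) m ∈ A.cl F := by
            have h5 := self_mem_cl (A := A) (F0 ∘ k0.succAbove) m
            rw [← hk] at h5
            exact cl_comp_subset F _ h5
          have h6 : (F0 ∘ k0.succAbove) m ∈ A.cl F0 := self_mem_cl F0 _
          rw [(hvm F hF _).2 h4, (hvm F0 hF0 _).2 h6, sub_zero]
      obtain ⟨u, hu⟩ := hq1 ⟨_, hmem⟩
      have hu' : u • q = v (A.cl F) - v (A.cl F0) := congrArg Subtype.val hu
      exact ⟨u, by rw [hu']; abel⟩
    · refine ⟨0, 0, fun F hF k hk => absurd ⟨F, k, hF, hk⟩ hY⟩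
  choose p q hpq using hline
  let u : Finset ι → Finset ι → ℂ := fun Y X =>
    if h : ∃ c : ℂ, v X = p Y + c • q Y then h.choose else 0
  refine ⟨{ l0 := l0, v := v, p := p, q := q, u := u, v0 := hv0, vmem := hvm, line := ?_ }⟩
  intro F hF k
  have h : ∃ c : ℂ, v (A.cl F) = p (A.cl (F ∘ k.succAbove)) + c • q (A.cl (F ∘ k.succAbove)) :=
    hpq _ F hF k rfl
  have h1 : u (A.cl (F ∘ k.succAbove)) (A.cl F) = h.choose := dif_pos h
  rw [h1]
  exact h.choose_spec

end Pool.Agent.ND.H34
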