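import Pool.Agent.Helper32_ND.Stmts

/-! # Squad ND (MP_b48657_ag): module LEMD. -/

set_option autoImplicit false
set_option linter.unusedVariables false
set_option linter.unusedSectionVars false

namespace Pool.Agent.ND.H34

open Finset Pool.Agent.ND

section

variable {ι : Type} [Fintype ι] [DecidableEq ι] {n : ℕ} {A : Arr ι n} {K : Type} [Field K]

/-- the exchange property -/
lemma exch {r : ℕ} {i j : ι} {H : Fin r → ι}
    (h1 : j ∈ A.cl (Fin.cons i H : Fin (r + 1) → ι)) (h2 : j ∉ A.cl H) :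
    i ∈ A.cl (Fin.cons j H : Fin (r + 1) → ι) := by
  have hr : ∀ a : ι, (Set.range fun k => A.L ((Fin.cons a H : Fin (r + 1) → ι) k))
      = insert (A.L a) (Set.range fun k => A.L (H k)) := by
    intro a
    ext x
    constructor
    · rintro ⟨k, rfl⟩
      refine Fin.cases ?_ (fun k => ?_) k
      · left; simp
      · right; exact ⟨k, by simp⟩
    · rintro (rfl | ⟨k, rfl⟩)
      · exact ⟨0, by simp⟩
      · exact ⟨k.succ, by simp⟩
  rw [Arr.mem_cl] at h1 h2 ⊢
  rw [hr] at h1 ⊢
  exact mem_span_insert_exchange h1 h2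

/-- the allowed generators -/
def al (A : Arr ι n) (K : Type) [Field K] (j : ι) (X : Finset ι) (r : ℕ) : Set (OS A K r) :=
  {x : OS A K r | ∃ G : Fin r → ι, (∀ k, G k ∈ X) ∧ j ∉ A.cl G ∧ x = e A K G}

lemma smul_mem' {O : Subring K} {r : ℕ} {S : Submodule O (OS A K r)} {c : K} (hc : c ∈ O)
    {x : OS A K r} (hx : x ∈ S) : c • x ∈ S := S.smul_mem (⟨c, hc⟩ : O) hx

lemma wd_mem {O : Subring K} {j i : ι} {X Y : Finset ι} {r : ℕ} (hYX : Y ⊆ X) (hj : j ∈ Y)
    (hi : i ∈ X) (hiY : i ∉ Y) (hY : ∀ (q : ℕ) (G : Fin q → ι), (∀ k, G k ∈ Y) → A.cl G ⊆ Y)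
    {y : OS A K r} (hy : y ∈ Submodule.span O (al A K j Y r)) :
    wd A K r i y ∈ Submodule.span O (al A K j X (r + 1)) := by
  induction hy using Submodule.span_induction with
  | mem x hx =>
    obtain ⟨G, h1, h2, rfl⟩ := hx
    rw [wd_e]
    apply Submodule.subset_span
    refine ⟨Fin.cons i G, ?_, ?_, rfl⟩
    · intro k
      refine Fin.cases ?_ (fun k => ?_) k
      · simpa using hi
      · simpa using hYX (h1 k)
    · intro hcon
      have h3 := exch hcon h2
      apply hiY
      apply hY _ _ _ h3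
      intro k
      refine Fin.cases ?_ (fun k => ?_) k
      · simpa using hj
      · simpa using h1 k
  | zero => rw [map_zero]; exact Submodule.zero_mem _
  | add a b _ _ ha hb => rw [map_add]; exact Submodule.add_mem _ ha hb
  | smul c a _ ha =>
    have : wd A K r i (c • a) = c • wd A K r i a := by
      show wd A K r i ((c : K) • a) = (c : K) • wd A K r i a
      rw [map_smul]
    rw [this]
    exact Submodule.smul_mem _ _ ha

lemma wX_bd {r : ℕ} (ρ : ι → K) (F : Fin (r + 1) → ι) :
    wX r ρ (A.cl F) (bd A K r (e A K F)) = (∑ i ∈ A.cl F, ρ i) • e A K F := by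
  rw [wX_apply, Finset.sum_smul]
  refine Finset.sum_congr rfl fun i hi => ?_
  rw [wd_bd_mem hi]

end

/-- LEMD -/
theorem lemd : LemdStmt := by
  intro ι _ _ n A K _ O ρ j hU r
  obtain ⟨hρ, hU⟩ := hU
  induction r with
  | zero =>
    intro F hF hj
    have hj0 : ∀ G : Fin 0 → ι, j ∉ A.cl G := by
      intro G hG
      rw [Arr.mem_cl] at hG
      have : (Set.range fun k => A.L (G k)) = ∅ := Set.range_eq_empty _
      rw [this, Submodule.span_empty, Submodule.mem_bot] at hG
      exact A.ne j hG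
    have hs := hU (A.cl F) hj
    refine ⟨(∑ i ∈ A.cl F, ρ i)⁻¹ • bd A K 0 (e A K F), ?_, ?_⟩
    · apply smul_mem' hs.2
      rw [bd_e]
      refine Submodule.sum_mem _ fun k _ => ?_
      apply smul_mem' (pow_mem (neg_mem (one_mem O)) _)
      apply Submodule.subset_span
      exact ⟨_, fun k => k.elim0, hj0 _, rfl⟩
    · rw [map_smul, wX_bd, smul_smul, inv_mul_cancel₀ hs.1, one_smul]
  | succ r ih =>
    intro F hF hj
    have hs := hU (A.cl F) hj
    set X := A.cl F with hX
    have key : ∀ k : Fin (r + 2), ∃ y ∈ Submodule.span O (al A K j X (r + 1)),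
        wX (r + 1) ρ X y = wX (r + 1) ρ X (e A K (F ∘ k.succAbove)) := by
      intro k
      set G := F ∘ k.succAbove with hG
      by_cases hjG : j ∈ A.cl G
      · obtain ⟨y, hy, hyG⟩ := ih G (Ind_face hF k) hjG
        have hYX : A.cl G ⊆ X := cl_comp_subset F _
        refine ⟨-∑ i ∈ X \ A.cl G, ρ i • wd A K r i y, ?_, ?_⟩
        · apply Submodule.neg_mem
          refine Submodule.sum_mem _ fun i hi => ?_
          obtain ⟨hi1, hi2⟩ := Finset.mem_sdiff.1 hi
          apply smul_mem' (hρ i)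
          exact wd_mem hYX hjG hi1 hi2 (fun q H hH => cl_subset_of hH) hy
        · have h1 : wX r ρ X y = e A K G + ∑ i ∈ X \ A.cl G, ρ i • wd A K r i y := by
            have h3 := Finset.sum_sdiff (f := fun i => ρ i • wd A K r i y) hYX
            rw [← hyG, wX_apply, wX_apply, ← h3]
            abel
          have h2 := wX_wX ρ X y
          rw [h1, map_add] at h2
          rw [map_neg]
          exact (eq_neg_of_add_eq_zero_left h2).symm
      · refine ⟨e A K G, ?_, rfl⟩
        apply Submodule.subset_span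
        exact ⟨G, fun m => self_mem_cl F _, hjG, rfl⟩
    choose y hy1 hy2 using key
    refine ⟨(∑ i ∈ X, ρ i)⁻¹ • ∑ k : Fin (r + 2), ((-1 : K) ^ (k : ℕ)) • y k, ?_, ?_⟩
    · apply smul_mem' hs.2
      refine Submodule.sum_mem _ fun k _ => ?_
      exact smul_mem' (pow_mem (neg_mem (one_mem O)) _) (hy1 k)
    · have h1 : wX (r + 1) ρ X (∑ k : Fin (r + 2), ((-1 : K) ^ (k : ℕ)) • y k)
          = wX (r + 1) ρ X (bd A K (r + 1) (e A K F)) := by
        rw [bd_e, map_sum, map_sum]
        refine Finset.sum_congr rfl fun k _ => ?_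
        rw [map_smul, map_smul, hy2 k]
      rw [map_smul, h1, hX, wX_bd, smul_smul, inv_mul_cancel₀ hs.1, one_smul]

end Pool.Agent.ND.H34
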